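import Pool.Agent.K3h22.EX.Stm6

/-!
# Weights which separate finitely many vectors (brick SEP of helper22, by helper87)
-/

set_option autoImplicit false

open Polynomial

namespace Pool.Agent.K3h87.ET

theorem t_SEP : Pool.Agent.K3h22.EX.S_SEP := by
  classical
  intro s β _ S
  set PS : Finset (Fin s → β → ℚ) := Fintype.piFinset S with hPS
  set Q : ℚ[X] := ∏ x ∈ PS, ∏ y ∈ PS, ∏ b : β,
    (if (∑ a : Fin s, C (x a b - y a b) * (X : ℚ[X]) ^ (a : ℕ)) = 0 then 1 else
      ∑ a : Fin s, C (x a b - y a b) * (X : ℚ[X]) ^ (a : ℕ)) with hQ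
  have hQ0 : Q ≠ 0 := by
    rw [hQ]
    refine Finset.prod_ne_zero_iff.2 fun x _ => Finset.prod_ne_zero_iff.2 fun y _ =>
      Finset.prod_ne_zero_iff.2 fun b _ => ?_
    split_ifs with h
    · exact one_ne_zero
    · exact h
  have hinj : Function.Injective fun M : ℕ => ((M + 1 : ℕ) : ℚ) := by
    intro M N h
    have h' : ((M + 1 : ℕ) : ℚ) = ((N + 1 : ℕ) : ℚ) := h
    have : M + 1 = N + 1 := by exact_mod_cast h'
    omega
  obtain ⟨r, ⟨M, hM⟩, hr⟩ := ((Set.infinite_range_of_injective hinj).sdiff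
    (Polynomial.finite_setOfPred_isRoot hQ0)).nonempty
  simp only at hM
  subst hM
  have hev : Q.eval ((M + 1 : ℕ) : ℚ) ≠ 0 := fun h => hr h
  refine ⟨fun a => (M + 1) ^ (a : ℕ), fun a => by positivity, fun x y hx hy h => ?_⟩
  have hxP : x ∈ PS := Fintype.mem_piFinset.2 hx
  have hyP : y ∈ PS := Fintype.mem_piFinset.2 hy
  by_contra hne
  obtain ⟨a, b, hab⟩ : ∃ a b, x a b ≠ y a b := by
    by_contra hcon
    push Not at hcon
    exact hne (funext fun a => funext fun b => hcon a b)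
  apply hev
  rw [hQ, eval_prod]
  refine Finset.prod_eq_zero hxP ?_
  rw [eval_prod]
  refine Finset.prod_eq_zero hyP ?_
  rw [eval_prod]
  refine Finset.prod_eq_zero (Finset.mem_univ b) ?_
  have hcoef : (∑ a : Fin s, C (x a b - y a b) * (X : ℚ[X]) ^ (a : ℕ)) ≠ 0 := by
    intro h0
    have h1 := congrArg (fun P : ℚ[X] => P.coeff (a : ℕ)) h0
    simp only [finsetSum_coeff, coeff_C_mul, coeff_X_pow, coeff_zero] at h1
    rw [Finset.sum_eq_single a] at h1
    · simp only [if_true, mul_one] at h1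
      exact hab (sub_eq_zero.1 h1)
    · intro c _ hca
      rw [if_neg, mul_zero]
      intro h2
      exact hca (Fin.ext h2.symm)
    · intro h2
      exact absurd (Finset.mem_univ a) h2
  rw [if_neg hcoef, eval_finsetSum]
  have h3 := h b
  have h4 : ∑ c : Fin s, (((M + 1) ^ (c : ℕ) : ℕ) : ℚ) * x c b -
      ∑ c : Fin s, (((M + 1) ^ (c : ℕ) : ℕ) : ℚ) * y c b = 0 := sub_eq_zero.2 h3
  rw [← Finset.sum_sub_distrib] at h4
  rw [← h4]
  refine Finset.sum_congr rfl fun c _ => ?_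
  rw [eval_mul, eval_C, eval_pow, eval_X]
  push_cast
  ring

end Pool.Agent.K3h87.ET
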